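import Mathlib
import Pool.Agent.TH170.GS.Main
import Pool.Agent.X303.FFT.Crys
import Pool.Agent.TH117.BL.Main
import Pool.Agent.Y1.KN.All
import Pool.Agent.Y1.KN.Use

/-!
# The crystalline Tate conjecture for abelian varieties over finite fields with almost all slope
types of all CM fields with few CM subfields, and of all CM fields whose degree has a large prime
factor

Over an algebraic closure of the field with `p` elements each abelian variety is isogenous to the
reduction of an abelian variety of CM type (Honda, Tate). So an abelian variety over the field with
`p ^ a` elements is modelled by `RedAV`: a finite product of CM types `(E i, Φ i)` with Weil numbers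
`π i ∈ E i` that satisfy the formula of Shimura and Taniyama; its cohomology of degree `n`, with
coefficients in an algebraically closed field `Ω`, consists of the alternating `n`-forms on
`Ω ⊗ H_1`, on which the Frobenius endomorphism acts by `π`. We fix an isomorphism `ν` of the algebraic
closure of `ℚ_p` with `ℂ`; it defines a `p`-adic valuation of `ℂ`, with the value one at `p`.

Let `K` be a CM field of degree `2 g`; nothing is assumed about its Galois group. Let `M` be a
function with nonzero integral values on the complex embeddings of `K`, invariant under complex
conjugation. A CM type `Φ` of `K` (a choice of one element out of each complex conjugate pair of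
embeddings; there are `2 ^ g` types), `M` and a real number `κ ≠ 0` prescribe the slopes
`(a + κ M) / 2` (at the embeddings in `Φ`) and `(a - κ M) / 2` (outside of `Φ`) of a Weil number in
`K`. If `p` splits completely in `K` then, by Honda and Tate, all slopes with rational values between
`0` and `a` that are symmetric in this way occur for abelian varieties. The case `M = 1`, `κ = a` is
the ordinary case; the assumption on `M` says that `a / 2` is not a slope. Slopes are rational, so
integral weights `M` are no restriction.

Let `K i` be finitely many CM fields, of degrees `2 g i`, that are pairwise independent: for `i ≠ k`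
and all complex embeddings `φ` of `K i` and `ψ` of `K k` some automorphism of `ℂ` is the identity on
`φ (K i)` and the complex conjugation on `ψ (K k)` (this is no condition for one field). Let `M i`
be weights as above all of whose values divide `n i`. There are `2 ^ (∑ i, g i)` families of
CM types `Φ i` of the fields `K i`. For such a family let `𝒞` (`OfTypes`) be the class of the abelian
varieties `Y` each of whose factors is supersingular or has a Frobenius endomorphism some power of
which is, for some `i`, a Weil number in `K i` with the slopes prescribed by `Φ i`, `M i` and some
real number `κ i ≠ 0` (which depends only on `Y` and `i`). So `Y` is, over an algebraic closure,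
isogenous to a product of powers of one abelian variety for each `i`, with the given slopes, and of
a supersingular one.

Let `Y` be an abelian variety in `𝒞`. Let `K₀` be the fraction field of the ring of Witt vectors of the
field with `Q = (p ^ a) ^ s` elements, and let `V₀` be the dual space of the first crystalline
cohomology group of `Y` with coefficients in `K₀`, with its linear Frobenius endomorphism `F₀`; the
crystalline cohomology group `H^{2m}(Y)` is the space of alternating forms of degree `2 m` on `V₀`. Over
an algebraically closed field `Ω` that contains `K₀` the space `V₀` is identified with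
`Ω ⊗ H_1(X, ℚ)`, where `F₀` is the multiplication by `π ^ s` (`IsCrystalline`). Let `A ⊆ H^{2m}(Y)` be
the space spanned over `K₀` by the classes of algebraic cycles of codimension `m` on `Y` over the field
with `Q` elements. It is used only that `A` contains each class `g` with `Fr g = Q ^ m g` that belongs,
over `Ω`, to the smallest system of cohomology classes of abelian varieties over finite fields that
contains the Tate classes of degree two and some Weil classes, and that is stable under linear
combinations, cup products, pull-backs along homomorphisms and push-forwards along projections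
(`ContainsAlg`; in fact the classes needed here are the linear combinations of products of classes of
divisors; theorem of Tate). A family of types is exceptional (`exceptionalFamilies ν K M`) if for some
`Y` in `𝒞`, some `s > 0` and some `m` there is a class `f` in `H^{2m}(Y)` with `Fr f = Q ^ m f`
(`IsTateCrys`) that does not belong to `A` (`Holds`). So for the families that are not exceptional the
crystalline Tate conjecture is true for all `Y` in `𝒞`, in all degrees and over all finite fields.

The theorem bounds the number of the exceptional families: it is at most
`2 ^ (∑ i, g i) * ∑ i, C * (n i) ^ 2 * rate (K i) (g i) (q i)`, with an absolute constant `C`. Here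
`q i` is any prime factor of `g i` (or `q i = 1`), and `rate K g q` is `(1 + log (2 g)) ^ 16` times
the smaller of the numbers

* `W (K) / √g`, where (second part of the theorem, `WeightEstimate`) `W (K) ≤ N ^ 2 * D ^ (1 / 4)`;
  `N` is the number of the CM subfields of `K` (with `K`) and `D` is the largest degree of a CM
  subfield of `K` that is normal over `ℚ` with a nonabelian Galois group (`D = 1` if there are none);
* `√g / q`.

So the exceptional types are a proportion `O (n ^ 2 * g ^ (-1 / 4) * (log g) ^ 16)` of all types of
all CM fields with a bounded number of CM subfields, and `O (n ^ 2 * g ^ (-1 / 2) * (log g) ^ 16)` if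
the normal nonabelian ones have bounded degrees (for instance if `K` has no proper CM subfields and
is not normal). And they are a proportion `O (n ^ 2 * g ^ (-δ) * (log g) ^ 16)` of the types of all CM
fields `K`, with any number of subfields, whose degree is divisible by a prime number
`q ≥ g ^ (1 / 2 + δ)`; for small `δ` there are such primes for about `log 2`, that is 69%, of all
numbers `g`. Some assumption is necessary: a multiquadratic CM field of degree `2 g` has `g` imaginary
quadratic subfields, and almost all of its types are degenerate. The bound of `AlmostAllSlopeTypes` is a
sum over the isotypic components of the odd part of the permutation representation. It contains the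
logarithm of the order of the Galois group, and gives nothing if this order is large and some
components have high multiplicities. Here nothing is assumed about the Galois group and the
multiplicities.

The number `W (K)` (`subfieldWeight K`) is defined as follows. The automorphisms of `ℂ` act on the
rational functions on the set of the complex embeddings of `K` which change their sign under complex
conjugation. A field of definition (`fieldsOfDefinition K`) of an isotypic component of this
representation is a smallest subfield `F` of `K` such that the values of the functions in the
component depend only on the restrictions of the embeddings to `F`. It is a CM field. Then `W (K)` is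
the sum over these fields `F` of the number of the CM subfields of `F`, multiplied by
`[F : ℚ] ^ (1 / 4)` if `F` is normal over `ℚ` and its Galois group is not abelian.

The bound for the number of the types for which the relations between the Frobenius eigenvalues are
not generated by those of the complex conjugate pairs is a theorem of the starting files
(`Pool.Agent.Y1.KN`, MP_ee618e_ag AllCMFields, where it is applied to the Tate conjecture for these
abelian varieties themselves).
-/

namespace Pool.Agent.Results.MP_60ec62_ag.AllCMFields

open NumberField Module Pool.Agent.H204R3.CM Pool.Agent.H977R3.CM Pool.Agent.TH170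

open Pool.Agent Pool.Agent.W495.TA Pool.Agent.TH117.F5

open scoped TensorProduct

/-- The crystalline Tate conjecture for all abelian varieties `Y` with the slope types `Φ`: `V₀` is the
dual of the first crystalline cohomology group, `F₀` its linear Frobenius endomorphism, the space `A` of
classes of cycles contains all Tate classes `f`. -/
def Holds {p : ℕ} [Fact p.Prime] (ν : PadicAlgCl p ≃+* ℂ) {I : Type} (K : I → Type)
    [∀ i, Field (K i)] (M : ∀ i, (K i →+* ℂ) → ℤ) (Φ : ∀ i, Set (K i →+* ℂ)) : Prop :=
  ∀ (Y : RedAV p ν), GS.OfTypes K M Φ Y → ∀ (s : ℕ), 0 < s →
    ∀ (K₀ Ω V₀ : Type) [Field K₀] [CharZero K₀] [Field Ω] [IsAlgClosed Ω] [CharZero Ω]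
      [Algebra K₀ Ω] [AddCommGroup V₀] [Module K₀ V₀] [FiniteDimensional K₀ V₀]
      (F₀ : V₀ →ₗ[K₀] V₀) (e : (Ω ⊗[K₀] V₀) ≃ₗ[Ω] TM Ω Y), IsCrystalline Y s F₀ e →
    ∀ (m : ℕ) (A : Submodule K₀ (V₀ [⋀^Fin (2 * m)]→ₗ[K₀] K₀)), ContainsAlg s F₀ e A →
    ∀ f : V₀ [⋀^Fin (2 * m)]→ₗ[K₀] K₀, IsTateCrys F₀ ((p ^ Y.a) ^ s) m f → f ∈ A

/-- The exceptional families of CM types. -/
def exceptionalFamilies {p : ℕ} [Fact p.Prime] (ν : PadicAlgCl p ≃+* ℂ) {I : Type} (K : I → Type)
    [∀ i, Field (K i)] (M : ∀ i, (K i →+* ℂ) → ℤ) : Set (∀ i, Set (K i →+* ℂ)) :=
  {Φ | (∀ i, IsCMType (Φ i)) ∧ ¬ Holds ν K M Φ}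

theorem holds_of {p : ℕ} [Fact p.Prime] {ν : PadicAlgCl p ≃+* ℂ} {I : Type} (K : I → Type)
    [∀ i, Field (K i)] (M : ∀ i, (K i →+* ℂ) → ℤ) (Φ : ∀ i, Set (K i →+* ℂ))
    (h : ∀ Y : RedAV p ν, GS.OfTypes K M Φ Y → ∃ Z : RedAV p ν,
      TH117.BL.HasElementaryRelations Z ∧ TH117.BL.IsPowersTimesSupersingular Z Y) :
    Holds ν K M Φ := by
  intro Y hY s hs K₀ Ω V₀ _ _ _ _ _ _ _ _ _ F₀ e he m A hA f hf
  obtain ⟨Z, h1, h2⟩ := h Y hY
  exact Pool.Agent.X303.FFT.crys_of s hs
    (fun G hG => TH117.BL.elementary Z h1 Ω Y h2 s m hs G hG) F₀ e he A hA f hf

/-- **The crystalline Tate conjecture for all abelian varieties over finite fields with almost all slope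
types of all CM fields with few CM subfields, and of all CM fields whose degree has a large prime
factor.** -/
theorem result :
    (∃ C : ℝ, 0 ≤ C ∧ ∀ (p : ℕ) [Fact p.Prime] (ν : PadicAlgCl p ≃+* ℂ) (I : Type) [Fintype I]
      (K : I → Type) [∀ i, Field (K i)] [∀ i, NumberField (K i)] [∀ i, IsCMField (K i)]
      (M : ∀ i, (K i →+* ℂ) → ℤ) (n g q : I → ℕ), PairwiseIndep K →
      (∀ i φ, M i (ComplexEmbedding.conjugate φ) = M i φ) → (∀ i, n i ≠ 0) →
      (∀ i φ, M i φ ∣ (n i : ℤ)) → (∀ i, finrank ℚ (K i) = 2 * g i) →
      (∀ i, q i ∣ g i ∧ (q i = 1 ∨ (q i).Prime)) →
      ((exceptionalFamilies ν K M).ncard : ℝ) ≤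
        2 ^ (∑ i, g i) * ∑ i, C * (n i : ℝ) ^ 2 * Y1.KN.rate (K i) (g i) (q i)) ∧
    Y1.KN.WeightEstimate := by
  obtain ⟨C, hC0, hC⟩ := Y1.KN.slope Y1.KN.families_holds
  refine ⟨⟨C, hC0, ?_⟩, Y1.KN.weight_estimate_holds⟩
  intro p _ ν I _ K _ _ _ M n g q hind hM hn hMn hg hq
  exact hC p ν I K M n g q hind hM hn hMn hg hq _ fun Φ h => holds_of K M Φ h

end Pool.Agent.Results.MP_60ec62_ag.AllCMFields
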