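import Pool.Agent.H313.GE.Pts

/-!
# The crystalline Tate conjecture for products with cyclic coverings, over all finite extensions

Let `k` be a field with `q` elements, `Z` the subset of projective space over `k` where the forms `G i`
vanish, assumed to be smooth, geometrically connected, of pure dimension `2 e`. Let `ℓ` be a prime, `n`
prime to `ℓ`, `N = n ℓ ^ a` with `a > 0` a divisor of `q - 1`, and `F` a form whose degree is positive
and divisible by `N` such that the subset `B` of `Z` where `F` vanishes is a smooth divisor. For `v` in
the unit group of `k` let `X_v : w ^ N = v ^ n F` be the cyclic covering of `Z` of degree `N` which is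
branched along `B`, a smooth projective variety; it is a covering of `X : w ^ n = F`.

For a character `ψ ≠ 1` of `k` whose order divides `N` the cohomology with compact support of `Z - B`
with coefficients in the Kummer sheaf of `ψ` for `F` is concentrated in the degree `2 e`, and
`charProduct G F ψ` is its polynomial `det (1 - T Frob)`. The cohomology of `X_v` is that of `Z` and, in
degree `2 e` only, the sum of these groups for the powers `ψ = χ ^ j`, `0 < j < N`, of a character `χ`
of order `N`. So `IsCoverPolynomial` holds for `X_v` with `P_v = det (1 - T Frob)` on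
`H ^ (2 e) (X_v) / H ^ (2 e) (Z)`, and for `X` with the corresponding polynomial `P`. By Katz and
Messing these are also the polynomials of the linear Frobenius on crystalline cohomology. The quotient
of the zeta functions of `B` and `Z` is `L₁ / L₂` with polynomials over the integers.

Let `Y` be any smooth projective variety over `k`, `i` an even number, and `S` the multiset of the
eigenvalues of Frobenius on `H ^ i (Y)`, in the ring of integers of a number field `K`. Then `W_v`, `W`,
the tensor products of `P_v`, `P` with `S`, are the polynomials `det (1 - T Frob)` on the tensor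
products of `H ^ i (Y)` with `H ^ (2 e) (X_v) / H ^ (2 e) (Z)` and `H ^ (2 e) (X) / H ^ (2 e) (Z)`.
-/

set_option autoImplicit false
set_option linter.all false
set_option maxHeartbeats 4000000

open Polynomial NumberField

namespace Pool.Agent.Results.MP_60ec62_ag.CoveringsEveryExtension

open Pool.Agent.H313.GE.Pts

/-- **The Tate classes on the products with cyclic coverings, over all finite extensions.**

Let `W₁`, `W₂`, `W` be the tensor products of `L₁`, `L₂`, `P` with `S`. Let `W₁ / W₂` be congruent
modulo `ℓ` to the product of the cyclotomic polynomials `Φ_m` for `m` in `t₁` and of `H₁`, and `W` to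
the product of the `Φ_m` for `m` in `t₂` and of `H₂`, and let no `Φ_m` with `m` prime to `ℓ` divide
`H₁ H₂` modulo `ℓ`. Then for all `v`, all `c` and every `r > 0` the number of the zeros `x` of `W_v`
with `(q ^ c x) ^ r = 1` is at most `(ℓ ^ a - 1) ∑ φ(m) + ℓ ^ a ∑ φ(m)`, sums over `t₁` and `t₂`.

Consequence, for `2 c = 2 e + i` and the extension `k'` of `k` of degree `r`. By the formula of Künneth
the crystalline cohomology of degree `2 c` of `Y × X_v` over `k'` is the sum of that of `Y × Z` and of
the tensor product of `H ^ i (Y)` with `H ^ (2 e) (X_v) / H ^ (2 e) (Z)`, and the bound is an upper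
bound for the dimension of the space of the classes `x` with `Fr x = q' ^ c x` in the second summand. If
`t₁` and `t₂` are empty, then there are no such classes: for every finite extension `k'` and every `v`
the map of cycle classes is surjective for `Y × X_v` in codimension `c` if and only if it is for
`Y × Z`. In general it is surjective for `Y × X_v` as soon as it is for `Y × Z` and the algebraic
classes in the second summand span a space whose dimension is the bound. The condition concerns only
the numbers of points of `Z`, `B`, `X` and `Y` over extensions of `k`, modulo `ℓ`, in the case `n = 1`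
only those of `Z`, `B` and `Y` (then `P = 1`, `W = 1` and `t₂` is empty). -/
theorem result (ℓ a n : ℕ) (hℓ : ℓ.Prime) (ha : a ≠ 0) (hn0 : 0 < n) (hn : n.Coprime ℓ)
    (k : Type) [Field k] [Finite k] (K : Type) [Field K] [NumberField K]
    (χ : MulChar k (𝓞 K)) (hχ : orderOf χ = n * ℓ ^ a) (S : Multiset (𝓞 K))
    (M s : ℕ) (G : Fin s → MvPolynomial (Fin (M + 1)) k) (F : MvPolynomial (Fin (M + 1)) k)
    (L₁ L₂ P : ℤ[X]) (hL : IsZetaQuotient G F L₁ L₂) (hP : IsCoverPolynomial G F (χ ^ ℓ ^ a) n P)
    (W₁ W₂ W : ℤ[X]) (hW₁ : IsTensor S L₁ W₁) (hW₂ : IsTensor S L₂ W₂) (hW : IsTensor S P W)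
    (t₁ t₂ : Multiset ℕ) (H₁ H₂ : (ZMod ℓ)[X]) (h₁ : Splits ℓ W₁ W₂ t₁ H₁)
    (h₂ : Splits ℓ W 1 t₂ H₂) (hH : NoCyclotomic ℓ (H₁ * H₂)) (c r : ℕ) (hr : 0 < r) (v : kˣ)
    (Pv Wv : ℤ[X])
    (hPv : IsCoverPolynomial G (MvPolynomial.C ((v : k) ^ n) * F) χ (n * ℓ ^ a) Pv)
    (hWv : IsTensor S Pv Wv) :
    zeroCount (Nat.card k ^ c) r Wv ≤
      (ℓ ^ a - 1) * (t₁.map Nat.totient).sum + ℓ ^ a * (t₂.map Nat.totient).sum :=
  bound ℓ a n hℓ ha hn0 hn K χ hχ S G F L₁ L₂ P hL hP W₁ W₂ W hW₁ hW₂ hW t₁ t₂ H₁ H₂ h₁ h₂ hH c r
    hr v Pv Wv hPv hWv

end Pool.Agent.Results.MP_60ec62_ag.CoveringsEveryExtension
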