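import Pool.Agent.X305.TQ.Fin

open CategoryTheory AlgebraicGeometry

universe u v v' w

open Pool.Agent.H914 Pool.Agent.H914.VarClass Pool.Agent.H914.VarClass.Obj
  Pool.Agent.X305.PE Pool.Agent.X305.TP Pool.Agent.X305.TQ

/-- **The crystalline Tate conjecture from the Tate conjecture at one prime.** Let `X` be a smooth
projective variety of dimension `2 n + g` over a finite field with `q` elements, `f` its Frobenius
endomorphism, `D` an ample divisor and `W` the `ℓ`-adic cohomology for one prime `ℓ` (or its scalar
extension to a larger coefficient field); `W'` is the crystalline cohomology, with `f^*` the `K`-linear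
Frobenius. Let the algebraic correspondences `e i` (with coefficients in the coefficient field of `W`)
be orthogonal projectors on `H^(2 n) (X)` with sum `1`, and let the adjoint of `e i` for the form
`tr (x ξ ^ g y)`, `ξ` the class of `D`, be the projector `e (bar i)`: for instance the projectors on
the eigenspaces of a commutative algebra of correspondences which contains the adjoints of its
elements; or the identity alone. The *defect* at `i` is the multiplicity of the eigenvalue `q ^ n` of
`f^*` on the `i`-part of `H^(2 n) (X)` minus the rank of the pairing between the algebraic classes in
the `i`-part and in the `bar i`-part. Suppose that all defects are at most `2` if `bar i = i` and at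
most `1` otherwise. Then:
(1) the eigenvalue `q ^ n` of `f^*` on `H^(2 n) (X)` is semisimple;
(2) if the Tate conjecture holds for `X` in codimension `n` and this one cohomology `W`, that is, the
eigenspace of `f^*` for `q ^ n` is spanned by classes of cycles, then it holds for all Weil
cohomologies `W'` in which the multiplicity of the eigenvalue `q ^ n` is the same (for the crystalline
cohomology by Katz and Messing, and for the `ℓ'`-adic cohomology for all primes `ℓ'` different from
the characteristic), the eigenvalue is semisimple and numerical and homological equivalence coincide
on the cycles of codimension `n`, for all `W'`.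

The roles of the `ℓ`-adic and the crystalline cohomology can be exchanged. The dimension of `X` is
arbitrary. It is not supposed that the projectors act on the other cohomologies, and the Lefschetz
standard conjecture is not used. -/
theorem Pool.Agent.Results.MP_60ec62_ag.FromOnePrime.result {k : Type u} [Field k]
    {𝒱 : VarClass k} {ops : CycleOps 𝒱} {W : WeilCohomology.{u, v} ops} {X : 𝒱.Obj}
    {D : X.Cycles} {n g : ℕ} {f : X ⟶ X} {q : ℕ} (hD : X.IsCyc 1 D) (hd : 2 * n + g = X.dim)
    (hHL : HardLefschetz W X D) (hq : 0 < q) (hf : ActsAsFrobenius W X D f q n) {ι : Type w}
    [Fintype ι] {e : ι → W.H X →ₗ[W.K] W.H X} {bar : ι → ι} (he : AlgDecomp W X D n g f e bar)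
    (hs : SmallDefectsAt W X D n g f q e bar) :
    FrobSemisimple W X n f q ∧
      (FrobTate W X n f q → ∀ W' : WeilCohomology.{u, v'} ops, ScalesCycles W' X n f q →
        frobMult W' X n f q = frobMult W X n f q →
          FrobTate W' X n f q ∧ FrobSemisimple W' X n f q ∧ NumEqHom W' X n) :=
  ⟨semisimple hd hHL hq hf he hs, fun hT W' hf' hdim =>
    transfer hD hd hHL hq hf (semisimple hd hHL hq hf he hs) hT W' hf' hdim⟩
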