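import Pool.Agent.H313.GE.Prd

/-!
# The crystalline conjecture of Tate for products of any number of coverings

Let `k` be a field with `q` elements and `ℓ` a prime which divides `q - 1`. For `t < r` let `Z_t` be the
smooth projective variety over `k` of dimension `n t` with the equations `G t i = 0`, `F t i`
(`i < m t`) forms whose divisors on `Z_t` are smooth and ample with normal crossings, and of degrees
divisible by `N_(t,i)`, a power of `ℓ` which divides `q - 1`. For an extension `k'` of `k` of degree `r'`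
with `q'` elements and `v = (v_(t,i))`, `v_(t,i)` not zero in `k'`, let `X_(t,v)` be the covering
`w_i ^ N_(t,i) = v_(t,i) F t i` (`i < m t`) of `Z_t` over `k'`, a smooth projective variety, and `X_v` the
product of the `X_(t,v)` over `t < r`.

The cohomology of `X_(t,v)` is the direct sum of the one of `Z_t` and of the spaces
`U_(t,j) = H ^ (n t)_c (U_(t,I), L_j)`, where `L_j` is the tensor product of the Kummer sheaves of
characters `ψ t i ≠ 1` of orders dividing `N_(t,i)` for `F t i`, `i` in a nonempty set `I` of indices, on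
the open subset `U_(t,I)` of `Z_t` where these `F t i` are not zero (`ψ t i = 1` for `i` outside of
`I`). The polynomial `det (1 - T Frob)` on `U_(t,j)` is the product `twistedProduct`, for `P = 1 - T`,
or its inverse if `n t` is odd. Let the `x t i` be the eigenvalues. Those of the Frobenius of `k'` on the
corresponding part of the cohomology of `X_(t,v)` are the products of the `(x t i) ^ r'` with the
values of the characters at the norms of the `v_(t,i)` from `k'` to `k`. For crystalline cohomology
this is the same, by the theorem of Katz and Messing. By the formula of Künneth the cohomology of `X_v`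
is the direct sum of the tensor products over `t < r` of such spaces, and of such products where some
of the factors are replaced by the cohomology of `Z_t`.

The theorem is about one such tensor product. Some of the factors may be arbitrary fixed varieties
`Y`: take for `Z_t` one point, the projective space of dimension `0`, with `n t = 0`, no `F t i`, and
`P t z = det (1 - T Frob)` on the cohomology of `Y` of one degree. In general, let `𝒴_t → Z_t` be a family
of smooth projective varieties and `P t z = det (1 - T Frob)` on the cohomology of one degree of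
the fibre at `z`, then the theorem is about the product of the fibre products of `𝒴_t` and `X_(t,v)` over
`Z_t`.
-/

set_option autoImplicit false
set_option linter.all false
set_option maxHeartbeats 4000000

open Polynomial NumberField Module

namespace Pool.Agent.Results.MP_60ec62_ag.ProductsOfCoverings

open Pool.Agent.H313.GE.Pts

/-- `H t` is the product of the `1 - c_(t,i) T`, `i < d t`, with `c_(t,i) ≠ 0`, and `W` the product of the
`1 - (∏_t c_(t,i_t)) T` over all the families `(i_t)`. -/
def IsTensorPolynomial (ℓ : ℕ) [Fact ℓ.Prime] {r : ℕ} (d : Fin r → ℕ) (H : Fin r → (ZMod ℓ)[X])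
    (W : (ZMod ℓ)[X]) : Prop :=
  ∃ c : ∀ t, Fin (d t) → AlgebraicClosure (ZMod ℓ), (∀ t i, c t i ≠ 0) ∧
    (∀ t, (H t).map (algebraMap (ZMod ℓ) (AlgebraicClosure (ZMod ℓ))) =
      ∏ i, (1 - C (c t i) * X)) ∧
    W.map (algebraMap (ZMod ℓ) (AlgebraicClosure (ZMod ℓ))) =
      ∏ i : ∀ t, Fin (d t), (1 - C (∏ t, c t (i t)) * X)

/-- The number of the families `(i_t)` such that the eigenvalue `(∏_t x_(t,i_t)) ^ r' ζ` of the
Frobenius of the extension `k'` of degree `r'` is `q' ^ c = (q ^ c) ^ r'`, where `ζ` is the product of the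
values of the characters `ψ t i` at the norms of the `v_(t,i)`. -/
noncomputable def newClasses {k K : Type} [Field k] [Field K] [NumberField K] {r : ℕ}
    {m d : Fin r → ℕ} (ψ : ∀ t, Fin (m t) → MulChar k (𝓞 K)) (x : ∀ t, Fin (d t) → 𝓞 K) (c : ℕ)
    {k' : Type} [Field k'] [Algebra k k'] (v : (Σ t, Fin (m t)) → k'ˣ) : ℕ :=
  Nat.card {i : ∀ t, Fin (d t) // (∏ t, x t (i t)) ^ finrank k k' *
    ∏ p : Σ t, Fin (m t), ψ p.1 p.2 (Algebra.norm k (v p : k')) =
      ((Nat.card k : 𝓞 K) ^ c) ^ finrank k k'}

/-- **The crystalline conjecture of Tate for products of any number of coverings.**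

Let the product of the `P z (T ^ (deg z))` over the closed points `z` of the open subset `U_(t,I)` of
`Z_t`, or its inverse if `n t` is odd, be modulo `ℓ` a polynomial `H t`, of which the degree is the
dimension `d t` of `U_(t,j)`. Let the tensor product `W` of the `H t` be modulo `ℓ` the product of
the cyclotomic polynomials `Φ_N` for `N` in a multiset `τ`, and of a polynomial which is not divisible
by any `Φ_N` with `N` prime to `ℓ`, and let `μ` be the sum of the `φ(N)`, `N` in `τ`. Then for all
characters `ψ t i` of `ℓ`-power order (the degrees of the coverings are not bounded), all finite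
extensions `k'` of `k`, all `c` and all twists `v`: `q' ^ c` is an eigenvalue of the Frobenius of `k'` on
the part `⊗_t U_(t,j)` of the cohomology of `X_v` of a multiplicity at most `μ`, and the average of this
multiplicity over all `v` is at most `μ / e`, where `e` is the order of the family of the characters
`ψ t i`.

If `μ = 0`, there are no Tate classes in this part of the cohomology of `X_v` for all `v`, `k'` and `c`.
If this is so for all nonempty sets of indices and all partial products (with the
cohomology of the other `Z_t` as fixed factors), the crystalline conjecture of Tate holds for the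
product `X_v` of the coverings, in all codimensions, if and only if it holds for the product of
the `Z_t ⊗ k'`. -/
theorem result (ℓ : ℕ) [Fact ℓ.Prime] (k : Type) [Field k] [Finite k] (hk : ℓ ∣ Nat.card k - 1)
    (K : Type) [Field K] [NumberField K] [IsGalois ℚ K] (r : ℕ) (M s m n d : Fin r → ℕ)
    (G : ∀ t, Fin (s t) → MvPolynomial (Fin (M t + 1)) k)
    (F : ∀ t, Fin (m t) → MvPolynomial (Fin (M t + 1)) k)
    (P : ∀ t, Pt (G t) → ℤ[X]) (hP : ∀ t z, (P t z).coeff 0 = 1) (I : ∀ t, Finset (Fin (m t)))
    (H : Fin r → (ZMod ℓ)[X])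
    (hH : ∀ t, IsSigned (n t) (PowerSeries.map (Int.castRingHom (ZMod ℓ))
      (openProduct (G t) (F t) (P t) (I t))) (H t))
    (W : (ZMod ℓ)[X]) (hW : IsTensorPolynomial ℓ d H W) (τ : Multiset ℕ) (hτ : ∀ N ∈ τ, 0 < N)
    (H' : (ZMod ℓ)[X]) (hWτ : W = (τ.map fun N => cyclotomic N (ZMod ℓ)).prod * H')
    (hH' : NoCyclotomic ℓ H')
    (ψ : ∀ t, Fin (m t) → MulChar k (𝓞 K)) (a : ℕ) (hψ : ∀ t i, ψ t i ^ ℓ ^ a = 1)
    (hψI : ∀ t i, i ∉ I t → ψ t i = 1) (x : ∀ t, Fin (d t) → 𝓞 K)
    (hx : ∀ t, IsSigned (n t) (twistedProduct (G t) (F t) (P t) (ψ t) (I t))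
      (∏ i, (1 - C (x t i) * X)))
    (c : ℕ) (k' : Type) [Field k'] [Finite k'] [Algebra k k'] :
    (∀ v : (Σ t, Fin (m t)) → k'ˣ, newClasses ψ x c v ≤ (τ.map Nat.totient).sum) ∧
    (∑ᶠ v : (Σ t, Fin (m t)) → k'ˣ, newClasses ψ x c v) *
      orderOf (fun p : Σ t, Fin (m t) => ψ p.1 p.2) ≤
        (Nat.card k' - 1) ^ (∑ t, m t) * (τ.map Nat.totient).sum := by
  classical
  have := Fintype.ofFinite ((Σ t, Fin (m t)) → k'ˣ)
  have hℓ : ℓ.Prime := Fact.out
  have hr : 0 < finrank k k' := Module.finrank_pos
  have hk1 : (Nat.card k : ZMod ℓ) = 1 := by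
    have h1 : 1 ≤ Nat.card k := Nat.card_pos
    have h2 : ((Nat.card k - 1 : ℕ) : ZMod ℓ) = 0 := (ZMod.natCast_eq_zero_iff _ _).2 hk
    rw [Nat.cast_sub h1, Nat.cast_one, sub_eq_zero] at h2
    exact h2
  obtain ⟨C₀, hc0, hc, hWc⟩ := hW
  have hmod : ∀ t, (∏ i, (1 - C (x t i) * X : (𝓞 K)[X])).coeff 0 = 1 ∧
      ∀ (R : Type) [Field R] [CharP R ℓ] (ρ : 𝓞 K →+* R),
      (∏ i, (1 - C (x t i) * X : (𝓞 K)[X])).map ρ = (H t).map (ZMod.castHom (dvd_refl ℓ) R) :=
    fun t => twisted_mod (G t) (F t) (P t) (hP t) (ψ t) (I t) (fun _ => a)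
      (fun i _ => hψ t i) (hx t) (hH t)
  have hcount : ∀ S : Finset (∀ t, Fin (d t)),
      (∀ i ∈ S, ∃ N : ℕ, 0 < N ∧ (∏ t, x t (i t)) ^ N = ((Nat.card k : 𝓞 K) ^ c) ^ N) →
      S.card ≤ (τ.map Nat.totient).sum := by
    intro S hS
    refine Pool.Agent.H313.GE.tensor_count x H (fun t => (hmod t).2) C₀ hc0 hc hWc hτ hWτ hH'
      (Q := Nat.card k ^ c) (pow_ne_zero c Nat.card_pos.ne') (by rw [Nat.cast_pow, hk1, one_pow])
      S fun i hi => ?_
    obtain ⟨N, hN, h⟩ := hS i hi
    exact ⟨N, hN, by rw [h, Nat.cast_pow]⟩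
  -- the eigenvalues are not zero
  have hx0 : ∀ t i, x t i ≠ 0 := by
    intro t i h0
    obtain ⟨M', hM', hm⟩ := Pool.Agent.TH639.SC.exists_red (𝓞 K) hℓ
    letI : Field (𝓞 K ⧸ M') := Ideal.Quotient.field M'
    have h1 : ((ℓ : ℕ) : 𝓞 K ⧸ M') = 0 := by
      have := Ideal.Quotient.eq_zero_iff_mem.2 hm
      rwa [map_natCast] at this
    have hch := Pool.Agent.TH639.SC.charP_of_mem (R := 𝓞 K ⧸ M') hℓ h1
    have hne : ∀ (R : Type) [Field R] (a : R), (1 - C a * X : R[X]) ≠ 0 := by
      intro R _ a h1
      have h2 := congrArg (fun p => Polynomial.coeff p 0) h1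
      simp at h2
    have hdeg : ∀ (R : Type) [Field R] (a : R), (1 - C a * X : R[X]).natDegree ≤ 1 := by
      intro R _ a
      refine (natDegree_sub_le _ _).trans ?_
      rw [natDegree_one, max_le_iff]
      exact ⟨Nat.zero_le _, (natDegree_C_mul_le _ _).trans natDegree_X_le⟩
    have h3 := congrArg natDegree ((hmod t).2 (𝓞 K ⧸ M') (Ideal.Quotient.mk M'))
    have h4 : ((H t).map (ZMod.castHom (dvd_refl ℓ) (𝓞 K ⧸ M'))).natDegree = d t := by
      rw [natDegree_map, ← natDegree_map (algebraMap (ZMod ℓ) (AlgebraicClosure (ZMod ℓ))), hc t,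
        natDegree_prod _ _ fun i _ => hne _ _]
      have h5 : ∑ i, (1 - C (C₀ t i) * X : (AlgebraicClosure (ZMod ℓ))[X]).natDegree =
          ∑ _i : Fin (d t), 1 := by
        refine Finset.sum_congr rfl fun i _ => ?_
        have h1 : (1 - C (C₀ t i) * X : (AlgebraicClosure (ZMod ℓ))[X]) =
            C (-(C₀ t i)) * X + C 1 := by
          rw [C_neg, C_1]
          ring
        rw [h1, natDegree_linear (neg_ne_zero.2 (hc0 t i))]
      rw [h5]
      simp
    rw [h4, Polynomial.map_prod] at h3
    have h5 : (∏ i, (1 - C (x t i) * X : (𝓞 K)[X]).map (Ideal.Quotient.mk M')).natDegree =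
        ∑ l, (1 - C (Ideal.Quotient.mk M' (x t l)) * X : (𝓞 K ⧸ M')[X]).natDegree := by
      rw [← natDegree_prod _ _ fun i _ => hne _ _]
      congr 1
      refine Finset.prod_congr rfl fun l _ => ?_
      rw [Polynomial.map_sub, Polynomial.map_one, Polynomial.map_mul, Polynomial.map_C,
        Polynomial.map_X]
    rw [h5] at h3
    have h6 : ∑ l, (1 - C (Ideal.Quotient.mk M' (x t l)) * X : (𝓞 K ⧸ M')[X]).natDegree <
        ∑ _l : Fin (d t), 1 := by
      refine Finset.sum_lt_sum (fun l _ => hdeg _ _) ⟨i, Finset.mem_univ i, ?_⟩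
      rw [h0, map_zero, C_0, zero_mul, sub_zero, natDegree_one]
      exact one_pos
    rw [h3] at h6
    simp at h6
  have hy : ∀ i : (∀ t, Fin (d t)), ∏ t, x t (i t) ≠ 0 := fun i =>
    Finset.prod_ne_zero_iff.2 fun t _ => hx0 t (i t)
  obtain ⟨h1, h2⟩ := Pool.Agent.H313.GE.avg_I (fun p : Σ t, Fin (m t) => ψ p.1 p.2)
    (pow_pos hℓ.pos a) (by funext p; exact hψ p.1 p.2) k' (fun i : (∀ t, Fin (d t)) =>
      ∏ t, x t (i t)) (Q := (Nat.card k : 𝓞 K) ^ c) hr (τ.map Nat.totient).sum hy hcount
  refine ⟨h1, ?_⟩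
  rw [finsum_eq_sum_of_fintype]
  have h3 : Fintype.card (Σ t, Fin (m t)) = ∑ t, m t := by
    rw [Fintype.card_sigma]
    exact Finset.sum_congr rfl fun t _ => Fintype.card_fin _
  rw [← h3]
  exact h2

end Pool.Agent.Results.MP_60ec62_ag.ProductsOfCoverings
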